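import Pool.Agent.Lib.MP_6bc78b_nt.MS.GL.Iface

/-! Project MS, Part GL, modules CMU and CMP (helper75): `log |ζ'|` against the prime sum. -/

set_option autoImplicit false

open Complex Filter Topology MeasureTheory ArithmeticFunction

namespace Pool.Agent.Lib.MP_6bc78b_nt.MS.GL.H75

open Pool.Agent.Lib.MP_6bc78b_nt Pool.Agent.Lib.MP_6bc78b_nt.MS
  Pool.Agent.Lib.MP_6bc78b_nt.MS.P1 Pool.Agent.Lib.MP_6bc78b_nt.MS.QZ

lemma PD_nonneg {δ : ℝ} (hδ : 0 ≤ δ) (y : ℝ) : 0 ≤ PD δ y := by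
  unfold PD
  exact tsum_nonneg fun γ => mul_nonneg (Nat.cast_nonneg _) (div_nonneg hδ (by positivity))

lemma SL_nonneg (δ y : ℝ) : 0 ≤ SL δ y := by
  unfold SL
  apply tsum_nonneg
  intro γ
  split_ifs
  · exact le_rfl
  · apply mul_nonneg (Nat.cast_nonneg _)
    apply Real.log_nonneg
    have : 0 ≤ δ ^ 2 / (y - γ) ^ 2 := by positivity
    linarith

/-- The error integral for `lam = 1/2`, `K = 8`. -/
noncomputable def Jer (T γ : ℝ) : ℝ :=
  ∫ δ in ((8 : ℝ) / Real.log T)..(3 / 4), PD δ γ / Real.cosh (δ * (1 / 2 * Real.log T))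

lemma Jer_nonneg {T : ℝ} (h0 : 0 ≤ 8 / Real.log T) (h1 : 8 / Real.log T ≤ 3 / 4) (γ : ℝ) :
    0 ≤ Jer T γ := by
  unfold Jer
  apply intervalIntegral.integral_nonneg h1
  intro δ hδ
  exact div_nonneg (PD_nonneg (h0.trans hδ.1) γ) (Real.cosh_pos _).le

lemma wt_pos' (T γ : ℝ) : 0 < wt T γ := Real.exp_pos _

/-- `1 + log u ≤ 2 √u` for `u > 0`. -/
lemma one_add_log_le {u : ℝ} (hu : 0 < u) : 1 + Real.log u ≤ 2 * Real.sqrt u := by
  have h1 : Real.log (Real.sqrt u) ≤ Real.sqrt u - 1 :=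
    Real.log_le_sub_one_of_pos (Real.sqrt_pos.2 hu)
  rw [Real.log_sqrt hu.le] at h1
  linarith

/-- The common part: Markov's inequality for the three error terms. -/
lemma common (h2 : QdmStatement) (h3 : MpdStatement) (h4 : EriStatement)
    (h5 : ZfacStatement) (C1 D ε : ℝ) (hD : 0 ≤ D) (hε : 0 < ε) :
    ∀ᶠ T : ℝ in atTop, ∀ S : Set ℝ, S ⊆ zset T →
      (∀ γ ∈ S, mz γ = 1 ∧ ε * Real.sqrt (ll T) <
        C1 + Jer T γ + ‖QW (1 / 2) 8 T γ - P0 T γ‖ +
          D * (8 / Real.log T * PD (8 / Real.log T) γ)) →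
      ∑ᶠ γ ∈ S, wt T γ ≤ ε * (cG T * Real.log T) := by
  classical
  obtain ⟨-, -, -, -, -, -, z7⟩ := h5
  obtain ⟨C2, T2, hC2, hT2, H2⟩ := h2 (1 / 2) 8 (by norm_num) (by norm_num) (by norm_num)
  obtain ⟨C3, T3, hC3, hT3, H3⟩ := h3 (1 / 2) (by norm_num) (by norm_num)
  obtain ⟨C4, T4, hC4, hT4, H4⟩ := h4 (1 / 2) 8 (by norm_num) (by norm_num) (by norm_num)
  have hll : Tendsto (fun T : ℝ => ll T) atTop atTop := by
    unfold ll
    exact Real.tendsto_log_atTop.comp Real.tendsto_log_atTop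
  have ha : Tendsto (fun T : ℝ => ε / 4 * Real.sqrt (ll T)) atTop atTop :=
    (Real.tendsto_sqrt_atTop.comp hll).const_mul_atTop (by positivity)
  filter_upwards [eventually_ge_atTop T2, eventually_ge_atTop T3, eventually_ge_atTop T4,
    ha.eventually_ge_atTop 1, ha.eventually_ge_atTop C1,
    ha.eventually_ge_atTop ((C4 + 8 * C2 / ε + 8 * D * C3) / ε),
    Real.tendsto_log_atTop.eventually_ge_atTop 11, hll.eventually_gt_atTop 0] with
    T w2 w3 w4 w5 w6 w7 w8 w9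
  intro S hS hSm
  set L : ℝ := Real.log T with hL
  set a : ℝ := ε / 4 * Real.sqrt (ll T) with haD
  have ha0 : 0 < a := by linarith
  have hL0 : 0 < L := by linarith
  have hδ0 : 0 < 8 / L := by positivity
  have hδ1 : 8 / L ≤ 3 / 4 := by
    rw [div_le_iff₀ hL0]; linarith
  have hT1 : 1 < T := by linarith
  have hDT : 0 < DD T := by
    unfold DD
    exact div_pos (by linarith) (Real.rpow_pos_of_pos hL0 _)
  have hpi : 0 < Real.sqrt Real.pi := Real.sqrt_pos.2 Real.pi_pos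
  have hc : 0 < cG T * L := by
    unfold cG
    positivity
  have B2 := H2 T w2
  have B3 := H3 T w3 (8 / L) (by
    rw [div_le_div_iff₀ (by positivity) hL0]
    linarith) hδ1
  have B4 := H4 T w4
  have hfS : S.Finite := (z7 T).subset hS
  rw [finsum_mem_eq_finite_toFinset_sum _ (z7 T)] at B2 B3 B4
  rw [finsum_mem_eq_finite_toFinset_sum _ hfS]
  -- pointwise
  have hpt : ∀ γ ∈ hfS.toFinset, wt T γ ≤
      1 / a * ((mz γ : ℝ) * wt T γ * Jer T γ) +
      1 / a ^ 2 * ((mz γ : ℝ) * wt T γ * ‖QW (1 / 2) 8 T γ - P0 T γ‖ ^ 2) +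
      D * (8 / L) / a * ((mz γ : ℝ) * wt T γ * PD (8 / L) γ) := by
    intro γ hγ
    simp only [Set.Finite.mem_toFinset] at hγ
    obtain ⟨m1, m2⟩ := hSm γ hγ
    rw [m1]
    have hJ := Jer_nonneg hδ0.le hδ1 γ
    have hN := norm_nonneg (QW (1 / 2) 8 T γ - P0 T γ)
    have hP : 0 ≤ D * (8 / L * PD (8 / L) γ) :=
      mul_nonneg hD (mul_nonneg hδ0.le (PD_nonneg hδ0.le γ))
    set J := Jer T γ
    set N := ‖QW (1 / 2) 8 T γ - P0 T γ‖
    set P := PD (8 / L) γ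
    have h4a : 4 * a = ε * Real.sqrt (ll T) := by rw [haD]; ring
    rw [← h4a] at m2
    have key : 1 ≤ 1 / a * J + 1 / a ^ 2 * N ^ 2 + D * (8 / L) / a * P := by
      have q1 : 0 ≤ 1 / a * J := by positivity
      have q2 : 0 ≤ 1 / a ^ 2 * N ^ 2 := by positivity
      have q3e : D * (8 / L) / a * P = 1 / a * (D * (8 / L * P)) := by ring
      have q3 : 0 ≤ D * (8 / L) / a * P := by
        rw [q3e]; positivity
      by_cases c1 : a ≤ J
      · have : 1 ≤ 1 / a * J := by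
          rw [div_mul_eq_mul_div, one_mul, le_div_iff₀ ha0, one_mul]; exact c1
        linarith
      by_cases c2 : a ≤ N
      · have : 1 ≤ 1 / a ^ 2 * N ^ 2 := by
          rw [div_mul_eq_mul_div, one_mul, le_div_iff₀ (by positivity), one_mul]
          exact pow_le_pow_left₀ ha0.le c2 2
        linarith
      by_cases c3 : a ≤ D * (8 / L * P)
      · have : 1 ≤ D * (8 / L) / a * P := by
          rw [q3e, div_mul_eq_mul_div, one_mul, le_div_iff₀ ha0, one_mul]; exact c3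
        linarith
      push Not at c1 c2 c3
      linarith
    have hw := (wt_pos' T γ).le
    calc wt T γ = wt T γ * 1 := (mul_one _).symm
      _ ≤ wt T γ * (1 / a * J + 1 / a ^ 2 * N ^ 2 + D * (8 / L) / a * P) :=
        mul_le_mul_of_nonneg_left key hw
      _ = _ := by push_cast; ring
  refine (Finset.sum_le_sum hpt).trans ?_
  have hsub : ∑ γ ∈ hfS.toFinset,
      (1 / a * ((mz γ : ℝ) * wt T γ * Jer T γ) +
      1 / a ^ 2 * ((mz γ : ℝ) * wt T γ * ‖QW (1 / 2) 8 T γ - P0 T γ‖ ^ 2) +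
      D * (8 / L) / a * ((mz γ : ℝ) * wt T γ * PD (8 / L) γ)) ≤
      ∑ γ ∈ (z7 T).toFinset,
      (1 / a * ((mz γ : ℝ) * wt T γ * Jer T γ) +
      1 / a ^ 2 * ((mz γ : ℝ) * wt T γ * ‖QW (1 / 2) 8 T γ - P0 T γ‖ ^ 2) +
      D * (8 / L) / a * ((mz γ : ℝ) * wt T γ * PD (8 / L) γ)) := by
    apply Finset.sum_le_sum_of_subset_of_nonneg
    · intro γ hγ
      simp only [Set.Finite.mem_toFinset] at hγ ⊢
      exact hS hγ
    · intro γ _ _
      have hw := (wt_pos' T γ).le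
      have hJ := Jer_nonneg hδ0.le hδ1 γ
      have hP := PD_nonneg hδ0.le γ
      positivity
  refine hsub.trans ?_
  rw [Finset.sum_add_distrib, Finset.sum_add_distrib, ← Finset.mul_sum, ← Finset.mul_sum,
    ← Finset.mul_sum]
  have k1 : 1 / a * ∑ γ ∈ (z7 T).toFinset, (mz γ : ℝ) * wt T γ * Jer T γ ≤
      1 / a * (C4 * (cG T * L)) := mul_le_mul_of_nonneg_left B4 (by positivity)
  have k2 : 1 / a ^ 2 * ∑ γ ∈ (z7 T).toFinset,
      (mz γ : ℝ) * wt T γ * ‖QW (1 / 2) 8 T γ - P0 T γ‖ ^ 2 ≤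
      1 / a ^ 2 * (C2 * (cG T * L) * (1 + Real.log (ll T))) :=
    mul_le_mul_of_nonneg_left B2 (by positivity)
  have k3 : D * (8 / L) / a * ∑ γ ∈ (z7 T).toFinset, (mz γ : ℝ) * wt T γ * PD (8 / L) γ ≤
      D * (8 / L) / a * (C3 * (cG T * L) * L) :=
    mul_le_mul_of_nonneg_left B3 (by positivity)
  have k4 : 1 / a ^ 2 * (C2 * (cG T * L) * (1 + Real.log (ll T))) ≤
      1 / a ^ 2 * (C2 * (cG T * L) * (8 * a / ε)) := by
    apply mul_le_mul_of_nonneg_left _ (by positivity)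
    apply mul_le_mul_of_nonneg_left _ (by positivity)
    have : 8 * a / ε = 2 * Real.sqrt (ll T) := by
      rw [haD]; field_simp; ring
    rw [this]
    exact one_add_log_le w9
  have e1 : 1 / a * (C4 * (cG T * L)) + 1 / a ^ 2 * (C2 * (cG T * L) * (8 * a / ε)) +
      D * (8 / L) / a * (C3 * (cG T * L) * L) =
      ((C4 + 8 * C2 / ε + 8 * D * C3) / a) * (cG T * L) := by
    field_simp
  have e2 : (C4 + 8 * C2 / ε + 8 * D * C3) / a ≤ ε := by
    rw [div_le_iff₀ ha0]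
    rw [div_le_iff₀ hε] at w7
    linarith
  calc _ ≤ ((C4 + 8 * C2 / ε + 8 * D * C3) / a) * (cG T * L) := by
        rw [← e1]; linarith
    _ ≤ ε * (cG T * L) := mul_le_mul_of_nonneg_right e2 hc.le

/-- module CMU -/
theorem cmu (h1 : LzmStatement) (h2 : QdmStatement) (h3 : MpdStatement) (h4 : EriStatement)
    (h5 : ZfacStatement) : CmuStatement := by
  intro ε hε
  obtain ⟨C1, T1, hC1, hT1, H1⟩ := h1 (1 / 2) 8 (by norm_num) (by norm_num) (by norm_num)
  filter_upwards [common h2 h3 h4 h5 C1 0 ε le_rfl hε, eventually_ge_atTop T1] with T hT w1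
  apply hT
  · intro γ hγ
    exact hγ.1
  · rintro γ ⟨g1, g2, g3⟩
    refine ⟨g2, ?_⟩
    have B1 := H1 T w1 γ g1 g2
    have B1' := (abs_le.1 B1).2
    have hSL := SL_nonneg (8 / Real.log T) γ
    have hre : (QW (1 / 2) 8 T γ).re - (P0 T γ).re ≤ ‖QW (1 / 2) 8 T γ - P0 T γ‖ := by
      rw [← Complex.sub_re]; exact Complex.re_le_norm _
    have hJ : Jer T γ = ∫ δ in ((8 : ℝ) / Real.log T)..(3 / 4),
      PD δ γ / Real.cosh (δ * (1 / 2 * Real.log T)) := rfl
    rw [hJ]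
    linarith

/-- module CMP -/
theorem cmp (h1 : LzmStatement) (h2 : QdmStatement) (h3 : MpdStatement) (h4 : EriStatement)
    (h5 : ZfacStatement) (h6 : SplStatement) : CmpStatement := by
  intro c ε hc hc1 hε
  obtain ⟨C1, T1, hC1, hT1, H1⟩ := h1 (1 / 2) 8 (by norm_num) (by norm_num) (by norm_num)
  have hD : 0 ≤ (1 + (8 : ℝ) ^ 2 / c ^ 2) / 2 := by positivity
  filter_upwards [common h2 h3 h4 h5 C1 ((1 + (8 : ℝ) ^ 2 / c ^ 2) / 2) ε hD hε,
    eventually_ge_atTop T1, Real.tendsto_log_atTop.eventually_ge_atTop 11,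
    eventually_gt_atTop 3] with T hT w1 w2 w3
  apply hT
  · intro γ hγ
    exact hγ.1
  · rintro γ ⟨g1, g2, g3⟩
    have hL0 : 0 < Real.log T := by linarith
    obtain ⟨m1, m2⟩ := h6 c 8 T γ hc hc1.le (by norm_num) w3 (by
      rw [div_lt_iff₀ hL0]; linarith) g1 g2
    refine ⟨m1, ?_⟩
    have B1 := H1 T w1 γ g1 m1
    have hSL := SL_nonneg (8 / Real.log T) γ
    have hre : |(QW (1 / 2) 8 T γ).re - (P0 T γ).re| ≤ ‖QW (1 / 2) 8 T γ - P0 T γ‖ := by
      rw [← Complex.sub_re]; exact Complex.abs_re_le_norm _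
    have hJ : Jer T γ = ∫ δ in ((8 : ℝ) / Real.log T)..(3 / 4),
      PD δ γ / Real.cosh (δ * (1 / 2 * Real.log T)) := rfl
    rw [hJ]
    refine lt_of_lt_of_le g3 ?_
    have e1 : Real.log ‖deriv riemannZeta (1 / 2 + γ * I)‖ - Real.log (Real.log T) -
        (P0 T γ).re = (Real.log ‖deriv riemannZeta (1 / 2 + γ * I)‖ -
        Real.log (Real.log T) - (QW (1 / 2) 8 T γ).re + 1 / 2 * SL (8 / Real.log T) γ) +
        ((QW (1 / 2) 8 T γ).re - (P0 T γ).re) - 1 / 2 * SL (8 / Real.log T) γ := by ring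
    rw [e1]
    refine (abs_sub _ _).trans ?_
    refine (add_le_add (abs_add_le _ _) le_rfl).trans ?_
    rw [abs_of_nonneg (show 0 ≤ 1 / 2 * SL (8 / Real.log T) γ by linarith)]
    have e2 : (1 + (8 : ℝ) ^ 2 / c ^ 2) / 2 * (8 / Real.log T * PD (8 / Real.log T) γ) =
      1 / 2 * ((1 + (8 : ℝ) ^ 2 / c ^ 2) * (8 / Real.log T) * PD (8 / Real.log T) γ) := by ring
    rw [e2]
    linarith

end Pool.Agent.Lib.MP_6bc78b_nt.MS.GL.H75
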