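import Pool.Agent.Lib.MP_6bc78b_nt.MS.GL.Iface
import Pool.Agent.Lib.MP_6bc78b_nt.MS.QZ.H6.Fin

/-! Project MS, Part GL, module CNL (helper75): from weights to counts. -/

set_option autoImplicit false

open Complex Filter Topology MeasureTheory ArithmeticFunction

namespace Pool.Agent.Lib.MP_6bc78b_nt.MS.GL.H75

open Pool.Agent.Lib.MP_6bc78b_nt Pool.Agent.Lib.MP_6bc78b_nt.MS
  Pool.Agent.Lib.MP_6bc78b_nt.MS.P1 Pool.Agent.Lib.MP_6bc78b_nt.MS.QZ

/-- The exchange of sums, with weights. -/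
lemma lower_weight {A h X κ Y B : ℝ} {H : ℝ → Set ℝ} (b : ℝ → ℝ) (hb : ∀ γ, 0 ≤ b γ)
    (hH : ∀ T, X ≤ T → H T ⊆ {γ : ℝ | γ ∈ zset T ∧ |γ - T| ≤ A * DD T})
    (hzf : ∀ T, (zset T).Finite) (hh : 0 < h)
    (hκ : κ ≤ 1 / 2) (hX : 3 ≤ X) (g1 : ∀ i, X ≤ grd X h i)
    (g2 : ∀ Y : ℝ, {i : ℕ | grd X h i ≤ Y}.Finite)
    (g3 : ∀ γ : ℝ, ∑ᶠ i ∈ {i : ℕ | |γ - grd X h i| ≤ A * DD (grd X h i)},
      h * wt (grd X h i) γ ≤ B)
    (hD : ∀ T, X ≤ T → A * DD T ≤ κ * T)
    (Z : Set ℝ) (hZ : Z.Finite)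
    (hsub : ∀ i, grd X h i ≤ Y → H (grd X h i) ⊆ Z) :
    ∑ i ∈ (g2 Y).toFinset, h * ∑ᶠ γ ∈ H (grd X h i), b γ * wt (grd X h i) γ ≤
      B * ∑ᶠ γ ∈ Z, b γ := by
  classical
  have hGf : ∀ i, (H (grd X h i)).Finite := fun i =>
    (hzf (grd X h i)).subset (fun γ hγ => (hH _ (g1 i) hγ).1)
  have e1 : ∀ i ∈ (g2 Y).toFinset,
      h * ∑ᶠ γ ∈ H (grd X h i), b γ * wt (grd X h i) γ =
      ∑ γ ∈ hZ.toFinset, if γ ∈ H (grd X h i) then b γ * (h * wt (grd X h i) γ)
        else 0 := by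
    intro i hi
    have hi' : grd X h i ≤ Y := by simpa using hi
    rw [finsum_mem_eq_finite_toFinset_sum _ (hGf _), Finset.mul_sum, ← Finset.sum_filter]
    apply Finset.sum_congr _ (fun _ _ => by ring)
    ext γ
    simp only [Set.Finite.mem_toFinset, Finset.mem_filter]
    constructor
    · intro hγ
      exact ⟨hsub i hi' hγ, hγ⟩
    · exact fun hγ => hγ.2
  rw [Finset.sum_congr rfl e1, Finset.sum_comm]
  have e2 : ∀ γ ∈ hZ.toFinset,
      ∑ i ∈ (g2 Y).toFinset, (if γ ∈ H (grd X h i) then b γ * (h * wt (grd X h i) γ)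
        else 0) ≤ B * b γ := by
    intro γ _
    rw [mul_comm B]
    refine le_trans ?_ (mul_le_mul_of_nonneg_left (g3 γ) (hb γ))
    have hJ : {i : ℕ | |γ - grd X h i| ≤ A * DD (grd X h i)}.Finite := by
      apply (g2 (2 * |γ|)).subset
      intro i hi
      simp only [Set.mem_ofPred_eq] at hi ⊢
      have h1 := hD _ (g1 i)
      have h2 := g1 i
      have h3 : grd X h i - γ ≤ κ * grd X h i := by
        have := (abs_le.1 hi).1
        linarith
      have h4 : κ * grd X h i ≤ 1 / 2 * grd X h i :=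
        mul_le_mul_of_nonneg_right hκ (by linarith)
      have h5 := le_abs_self γ
      linarith
    rw [finsum_mem_eq_finite_toFinset_sum _ hJ, ← Finset.sum_filter, Finset.mul_sum]
    apply Finset.sum_le_sum_of_subset_of_nonneg
    · intro i hi
      simp only [Finset.mem_filter, Set.Finite.mem_toFinset, Set.mem_ofPred_eq] at hi ⊢
      exact (hH _ (g1 i) hi.2).2
    · intro i _ _
      exact mul_nonneg (hb γ) (mul_nonneg hh.le (H6.wt_pos _ _).le)
  refine (Finset.sum_le_sum e2).trans ?_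
  rw [← Finset.mul_sum, finsum_mem_eq_finite_toFinset_sum _ hZ]

/-- module CNL -/
theorem cnl (h3 : GrdStatement) (h4 : NasStatement) (h5 : ZfacStatement) : CnlStatement := by
  classical
  obtain ⟨z1, z2, z3, z4, z5, z6, z7⟩ := h5
  intro q A ε b H hq0 hA hε hb hHev X1
  set t : ℝ := min (1 / 64) (ε / (8 * q)) with ht
  have ht0 : 0 < t := lt_min (by norm_num) (by positivity)
  have ht1 : t ≤ 1 / 64 := min_le_left _ _
  have ht2 : 8 * q * t ≤ ε := by
    have h8 : t ≤ ε / (8 * q) := min_le_right _ _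
    rw [le_div_iff₀ (by positivity)] at h8
    linarith
  obtain ⟨X0, hX0, hg⟩ := h3 t A ht0 (by linarith) hA
  obtain ⟨XG, hXG⟩ := hHev.exists_forall_of_atTop
  obtain ⟨XD, hXD⟩ := (H6.dd_small A t ht0).exists_forall_of_atTop
  set X : ℝ := max (max X0 X1) (max XG XD) with hX
  have hX0' : X0 ≤ X := (le_max_left _ _).trans (le_max_left _ _)
  have hXX1 : X1 ≤ X := (le_max_right _ _).trans (le_max_left _ _)
  have hXG' : XG ≤ X := (le_max_left _ _).trans (le_max_right _ _)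
  have hXD' : XD ≤ X := (le_max_right _ _).trans (le_max_right _ _)
  have hX3 : 3 ≤ X := hX0.trans hX0'
  obtain ⟨g1, g2, g3, g4, g5⟩ := hg X hX0'
  have hD : ∀ T, X ≤ T → A * DD T ≤ t * T := fun T hT => hXD T (hXD'.trans hT)
  have hH : ∀ T, X ≤ T → H T ⊆ {γ : ℝ | γ ∈ zset T ∧ |γ - T| ≤ A * DD T} :=
    fun T hT => (hXG T (hXG'.trans hT)).1
  have hZfin : ∀ T : ℝ, (SH H A X1 T).Finite := by
    intro T
    apply (z6 T).subset
    rintro γ ⟨hT, T', _, _, hz, _⟩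
    exact ⟨by linarith [hz.1, hz.2.1], hT, hz.2.2⟩
  have hNZ : ∀ T, NZ T = Nb (fun γ => (mz γ : ℝ)) T := by
    intro T
    unfold NZ Nb
    have hZ2 : {γ : ℝ | 0 < γ ∧ γ ≤ T ∧ hardyZ γ = 0} =
        {γ : ℝ | 0 < γ ∧ γ ≤ T ∧ riemannZeta (1 / 2 + γ * I) = 0} := by
      ext γ
      simp only [Set.mem_ofPred_eq, z1]
    rw [hZ2]
    apply finsum_mem_congr rfl
    intro γ hγ
    rw [z2 γ hγ.2.2]
  have ev1 : ∀ᶠ T : ℝ in atTop, NZ T ≤ (1 + t) * (T * Real.log T / (2 * Real.pi)) := by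
    have := h4.eventually_le_const (show (1 : ℝ) < 1 + t by linarith)
    filter_upwards [this, eventually_gt_atTop 1] with T hT hT1
    have hL := Real.log_pos hT1
    have hp : 0 < T * Real.log T / (2 * Real.pi) := by
      have := Real.pi_pos
      positivity
    rw [div_le_iff₀ hp] at hT
    rw [hNZ]; exact hT
  have ev2 : ∀ᶠ T : ℝ in atTop, (1 - t) * (T / (1 + t) * Real.log (T / (1 + t))) ≤
      ∑ᶠ i ∈ {i : ℕ | grd X t i ≤ T / (1 + t)}, t * DD (grd X t i) * Real.log (grd X t i) := by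
    have hc : Tendsto (fun T : ℝ => T / (1 + t)) atTop atTop :=
      tendsto_id.atTop_div_const (by linarith)
    exact hc.eventually (g4 t ht0)
  obtain ⟨T1, hT1⟩ := (ev1.and (ev2.and (H6.ylogy t ht0))).exists_forall_of_atTop
  refine ⟨max T1 X, ?_⟩
  intro T hT
  refine ⟨hZfin T, ?_⟩
  have hTX : X ≤ T := (le_max_right _ _).trans hT
  obtain ⟨e1, e2, e3⟩ := hT1 T ((le_max_left _ _).trans hT)
  have hT3 : 3 ≤ T := hX3.trans hTX
  have hLT : 0 < Real.log T := Real.log_pos (by linarith)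
  have k1 := lower_weight (Y := T / (1 + t)) (κ := t) b hb hH z7 ht0 (by linarith) hX3 g1 g2
    g3 hD (SH H A X1 T) (hZfin T) (by
      intro i hi γ hγ
      have hgi := g1 i
      obtain ⟨w1, w2⟩ := hH _ hgi hγ
      have w3 := (abs_le.1 w2).2
      have w4 := hD _ hgi
      rw [le_div_iff₀ (by linarith)] at hi
      exact ⟨by linarith, grd X t i, hXX1.trans hgi, hγ, w1, w2⟩)
  set N : ℝ := ∑ᶠ γ ∈ SH H A X1 T, b γ with hN
  have hN0 : 0 ≤ N := finsum_nonneg fun γ => finsum_nonneg fun _ => hb γ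
  rw [finsum_mem_eq_finite_toFinset_sum _ (g2 _)] at e2
  have k2 : q / (2 * Real.sqrt Real.pi) *
      ∑ i ∈ (g2 (T / (1 + t))).toFinset, t * DD (grd X t i) * Real.log (grd X t i) ≤
      ∑ i ∈ (g2 (T / (1 + t))).toFinset,
        t * ∑ᶠ γ ∈ H (grd X t i), b γ * wt (grd X t i) γ := by
    rw [Finset.mul_sum]
    apply Finset.sum_le_sum
    intro i _
    have w2 := (hXG (grd X t i) (hXG'.trans (g1 i))).2
    have w3 := mul_le_mul_of_nonneg_left w2 ht0.le
    refine le_trans (le_of_eq ?_) w3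
    unfold cG
    ring
  have k3 : q / (2 * Real.sqrt Real.pi) *
      ((1 - t) * (T / (1 + t) * Real.log (T / (1 + t)))) ≤ (Real.sqrt Real.pi + 3 * t) * N :=
    (mul_le_mul_of_nonneg_left e2 (by positivity)).trans (k2.trans k1)
  by_cases ha : 0 < q - ε
  · exact H6.endgame hq0 ht0 ht1 ht2 ha (by positivity) hN0 e3 k3 e1
  · have : (q - ε) * NZ T ≤ 0 :=
      mul_nonpos_of_nonpos_of_nonneg (by linarith) (H6.NZ_nonneg T)
    linarith

end Pool.Agent.Lib.MP_6bc78b_nt.MS.GL.H75
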